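import Pool.Agent.J6H9.EX.Stm

/-!
# Project EX (MP_f6e960_lc): gluing of the finite configurations (EX-UNI)
-/

set_option autoImplicit false

namespace Pool.Agent.J6H46.EX

open Filter Topology Pool.Agent.J6H9.EU Pool.Agent.J6H9.EX

private theorem st_succ (d : ℕ → ℕ) (n : ℕ) : st d (n + 1) = st d n + d n := by
  unfold st
  rw [Finset.sum_range_succ]

private theorem st_mono (d : ℕ → ℕ) : Monotone (st d) := by
  apply monotone_nat_of_le_succ
  intro n
  rw [st_succ]
  omega

private theorem le_st {d : ℕ → ℕ} (hd : ∀ n, 0 < d n) (n : ℕ) : n ≤ st d n := by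
  induction n with
  | zero => omega
  | succ n ih =>
    rw [st_succ]
    have := hd n
    omega

private theorem mem_Dn {d : ℕ → ℕ} {n x : ℕ} : x ∈ Dn d n ↔ st d n ≤ x ∧ x < st d (n + 1) := by
  unfold Dn
  rw [Finset.mem_Ico, st_succ]

private theorem between {d : ℕ → ℕ} {a b n x : ℕ} (h1 : st d a ≤ x) (h2 : x < st d b)
    (hx : x ∈ Dn d n) : a ≤ n ∧ n < b := by
  rw [mem_Dn] at hx
  constructor
  · by_contra hlt
    have := st_mono d (show n + 1 ≤ a by omega)
    omega
  · by_contra hlt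
    have := st_mono d (show b ≤ n by omega)
    omega

theorem main : Pool.Agent.J6H9.EX.S_UNI := by
  classical
  intro w d hm η φ hη hconf hinv
  have hd := hm.dpos
  have hconf' : ∀ k M : ℕ, ∃ B C : Finset ℕ, Conf w d φ η (1 / ((k : ℝ) + 1)) M B C :=
    fun k M => hconf _ (by positivity) M
  choose B C hB1 hC1 hj hB2 hC2 using hconf'
  obtain ⟨Ms, Ms_succ⟩ : ∃ Ms : ℕ → ℕ,
      ∀ k, Ms (k + 1) = max (Ms k) ((B k (Ms k) ∪ C k (Ms k)).sup id) + 1 :=
    ⟨fun k => Nat.rec 0 (fun k m => max m ((B k m ∪ C k m).sup id) + 1) k, fun k => rfl⟩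
  have hMs : StrictMono Ms := strictMono_nat_of_lt_succ fun k => by
    rw [Ms_succ]
    exact Nat.lt_succ_of_le (le_max_left _ _)
  have hup : ∀ k, ∀ x ∈ B k (Ms k) ∪ C k (Ms k), x < st d (Ms (k + 1)) := by
    intro k x hx
    have e1 : x ≤ max (Ms k) ((B k (Ms k) ∪ C k (Ms k)).sup id) :=
      le_trans (Finset.le_sup (f := id) hx) (le_max_right _ _)
    have e2 := le_st hd (Ms (k + 1))
    have e3 := Ms_succ k
    omega
  have inB : ∀ k, ∀ x ∈ B k (Ms k), st d (Ms k) ≤ x ∧ x < st d (Ms (k + 1)) := fun k x hx =>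
    ⟨hB1 k (Ms k) x hx, hup k x (Finset.mem_union_left _ hx)⟩
  have inC : ∀ k, ∀ x ∈ C k (Ms k), st d (Ms k) ≤ x ∧ x < st d (Ms (k + 1)) := fun k x hx =>
    ⟨hC1 k (Ms k) x hx, hup k x (Finset.mem_union_right _ hx)⟩
  have uniq : ∀ i j n, (Ms i ≤ n ∧ n < Ms (i + 1)) → (Ms j ≤ n ∧ n < Ms (j + 1)) → i = j := by
    intro i j n hi hj
    have e1 := hMs.lt_iff_lt.1 (lt_of_le_of_lt hi.1 hj.2)
    have e2 := hMs.lt_iff_lt.1 (lt_of_le_of_lt hj.1 hi.2)
    omega
  have uniqB : ∀ i j x, x ∈ B i (Ms i) → x ∈ B j (Ms j) → i = j := by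
    intro i j x hi hj
    have h1 := inB i x hi
    have h2 := inB j x hj
    rcases lt_trichotomy i j with hlt | heq | hgt
    · have := st_mono d (hMs.monotone (show i + 1 ≤ j from hlt))
      omega
    · exact heq
    · have := st_mono d (hMs.monotone (show j + 1 ≤ i from hgt))
      omega
  obtain ⟨BB, hBB⟩ : ∃ S : Set ℕ, S = {x | ∃ k, x ∈ B k (Ms k)} := ⟨_, rfl⟩
  obtain ⟨CC, hCC⟩ : ∃ S : Set ℕ, S = {x | ∃ k, x ∈ C k (Ms k)} := ⟨_, rfl⟩
  have hB : BB ∈ W w d := by
    show Tendsto (fun n => ∑ x ∈ (Dn d n).filter (· ∈ BB), w x) atTop (𝓝 0)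
    rw [Metric.tendsto_atTop]
    intro ε hε
    obtain ⟨k0, hk0⟩ := exists_nat_one_div_lt hε
    refine ⟨Ms k0, fun n hn => ?_⟩
    have hnn : 0 ≤ ∑ x ∈ (Dn d n).filter (· ∈ BB), w x :=
      Finset.sum_nonneg fun x _ => (hm.pos x).le
    rw [Real.dist_eq, sub_zero, abs_of_nonneg hnn]
    rcases ((Dn d n).filter (· ∈ BB)).eq_empty_or_nonempty with he | ⟨x, hx⟩
    · rw [he]
      simpa using hε
    · rw [Finset.mem_filter] at hx
      obtain ⟨hxD, hxB⟩ := hx
      rw [hBB] at hxB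
      obtain ⟨j, hjx⟩ := hxB
      have hjn := between (inB j x hjx).1 (inB j x hjx).2 hxD
      have hk0j : k0 ≤ j := by
        have := hMs.lt_iff_lt.1 (lt_of_le_of_lt hn hjn.2)
        omega
      have hsub : (Dn d n).filter (· ∈ BB) ⊆ (Dn d n).filter (· ∈ B j (Ms j)) := by
        intro y hy
        rw [Finset.mem_filter] at hy ⊢
        obtain ⟨hyD, hyB⟩ := hy
        rw [hBB] at hyB
        obtain ⟨i, hi⟩ := hyB
        have hij : i = j := uniq i j n (between (inB i y hi).1 (inB i y hi).2 hyD) hjn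
        subst hij
        exact ⟨hyD, hi⟩
      have h8 : ∑ x ∈ (Dn d n).filter (· ∈ BB), w x ≤ 1 / ((j : ℝ) + 1) :=
        le_trans (Finset.sum_le_sum_of_subset_of_nonneg hsub fun x _ _ => (hm.pos x).le)
          (hB2 j (Ms j) n)
      have hkj : (k0 : ℝ) ≤ j := by exact_mod_cast hk0j
      calc ∑ x ∈ (Dn d n).filter (· ∈ BB), w x ≤ 1 / ((j : ℝ) + 1) := h8
        _ ≤ 1 / ((k0 : ℝ) + 1) := by gcongr
        _ < ε := hk0
  have hC : CC ∉ W w d := by
    intro hcon
    have hcon' : Tendsto (fun n => ∑ x ∈ (Dn d n).filter (· ∈ CC), w x) atTop (𝓝 0) := hcon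
    rw [Metric.tendsto_atTop] at hcon'
    obtain ⟨n0, hn0⟩ := hcon' η hη
    obtain ⟨m, hm'⟩ := hC2 n0 (Ms n0)
    have hne : ((Dn d m).filter (· ∈ C n0 (Ms n0))).Nonempty := by
      rw [Finset.nonempty_iff_ne_empty]
      intro he
      rw [he, Finset.sum_empty] at hm'
      linarith
    obtain ⟨x, hx⟩ := hne
    rw [Finset.mem_filter] at hx
    have hbt := between (inC n0 x hx.2).1 (inC n0 x hx.2).2 hx.1
    have hm0 : n0 ≤ m := le_trans hMs.le_apply hbt.1
    have e1 := hn0 m hm0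
    have hnn : 0 ≤ ∑ x ∈ (Dn d m).filter (· ∈ CC), w x :=
      Finset.sum_nonneg fun x _ => (hm.pos x).le
    rw [Real.dist_eq, sub_zero, abs_of_nonneg hnn] at e1
    have hsub : (Dn d m).filter (· ∈ C n0 (Ms n0)) ⊆ (Dn d m).filter (· ∈ CC) := by
      intro y hy
      rw [Finset.mem_filter] at hy ⊢
      refine ⟨hy.1, ?_⟩
      rw [hCC]
      exact ⟨n0, hy.2⟩
    have e2 : ∑ x ∈ (Dn d m).filter (· ∈ C n0 (Ms n0)), w x ≤
        ∑ x ∈ (Dn d m).filter (· ∈ CC), w x :=
      Finset.sum_le_sum_of_subset_of_nonneg hsub fun x _ _ => (hm.pos x).le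
    linarith
  have himg : ∀ (S : Set ℕ) (n : ℕ), (φ '' S ∩ Set.Iio n).ncard = {x | x ∈ S ∧ φ x < n}.ncard := by
    intro S n
    have e : φ '' S ∩ Set.Iio n = φ '' {x | x ∈ S ∧ φ x < n} := by
      ext y
      constructor
      · rintro ⟨⟨x, hx, rfl⟩, hy⟩
        exact ⟨x, ⟨hx, hy⟩, rfl⟩
      · rintro ⟨x, ⟨hx, hy⟩, rfl⟩
        exact ⟨⟨x, hx, rfl⟩, hy⟩
    rw [e, Set.ncard_image_of_injective _ φ.injective]
  have hcount : ∀ n, (φ '' CC ∩ Set.Iio n).ncard ≤ (φ '' BB ∩ Set.Iio n).ncard := by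
    intro n
    rw [himg, himg]
    have hfinall : {x | φ x < n}.Finite := by
      have e : {x | φ x < n} = φ ⁻¹' (Set.Iio n) := rfl
      rw [e]
      exact (Set.finite_Iio n).preimage φ.injective.injOn
    obtain ⟨X, hX⟩ := hfinall.bddAbove
    have s1 : {x | x ∈ CC ∧ φ x < n} ⊆
        (((Finset.range (X + 1)).biUnion fun k => (C k (Ms k)).filter fun x => φ x < n : Finset ℕ) :
          Set ℕ) := by
      rintro x ⟨hx, hxn⟩
      rw [hCC] at hx
      obtain ⟨k, hk⟩ := hx
      have hxX : x ≤ X := hX hxn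
      have h1 := (inC k x hk).1
      have h2 := le_st hd (Ms k)
      have hkm : k ≤ Ms k := hMs.le_apply
      simp only [Finset.coe_biUnion, Set.mem_iUnion]
      refine ⟨k, ?_, ?_⟩
      · simp only [Finset.coe_range, Set.mem_Iio]
        omega
      · simp only [Finset.coe_filter]
        exact ⟨hk, hxn⟩
    have s2 : (((Finset.range (X + 1)).biUnion fun k => (B k (Ms k)).filter fun x => φ x < n :
        Finset ℕ) : Set ℕ) ⊆ {x | x ∈ BB ∧ φ x < n} := by
      intro x hx
      simp only [Finset.coe_biUnion, Set.mem_iUnion] at hx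
      obtain ⟨k, -, hk⟩ := hx
      simp only [Finset.coe_filter] at hk
      refine ⟨?_, hk.2⟩
      rw [hBB]
      exact ⟨k, hk.1⟩
    have t1 : ∀ k, ((C k (Ms k)).filter fun x => φ x < n).card ≤
        ((B k (Ms k)).filter fun x => φ x < n).card := by
      intro k
      obtain ⟨j, hjinj, hjm⟩ := hj k (Ms k)
      apply Finset.card_le_card_of_injOn j
      · intro c hc
        have hc' : c ∈ (C k (Ms k)).filter fun x => φ x < n := hc
        rw [Finset.mem_filter] at hc'
        have hg : j c ∈ (B k (Ms k)).filter fun x => φ x < n := by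
          rw [Finset.mem_filter]
          exact ⟨(hjm c hc'.1).1, lt_of_le_of_lt (hjm c hc'.1).2 hc'.2⟩
        exact hg
      · apply hjinj.mono
        intro c hc
        have hc' : c ∈ (C k (Ms k)).filter fun x => φ x < n := hc
        rw [Finset.mem_filter] at hc'
        exact hc'.1
    have t2 : ((Finset.range (X + 1)).biUnion fun k => (B k (Ms k)).filter fun x => φ x < n).card =
        ∑ k ∈ Finset.range (X + 1), ((B k (Ms k)).filter fun x => φ x < n).card := by
      apply Finset.card_biUnion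
      intro i _ j _ hij
      show Disjoint ((B i (Ms i)).filter fun x => φ x < n) ((B j (Ms j)).filter fun x => φ x < n)
      rw [Finset.disjoint_left]
      intro x hx hx'
      rw [Finset.mem_filter] at hx hx'
      exact hij (uniqB i j x hx.1 hx'.1)
    calc {x | x ∈ CC ∧ φ x < n}.ncard ≤
        ((((Finset.range (X + 1)).biUnion fun k => (C k (Ms k)).filter fun x => φ x < n :
          Finset ℕ) : Set ℕ)).ncard := Set.ncard_le_ncard s1 (Finset.finite_toSet _)
      _ = ((Finset.range (X + 1)).biUnion fun k => (C k (Ms k)).filter fun x => φ x < n).card :=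
          Set.ncard_coe_finset _
      _ ≤ ∑ k ∈ Finset.range (X + 1), ((C k (Ms k)).filter fun x => φ x < n).card :=
          Finset.card_biUnion_le
      _ ≤ ∑ k ∈ Finset.range (X + 1), ((B k (Ms k)).filter fun x => φ x < n).card :=
          Finset.sum_le_sum fun k _ => t1 k
      _ = ((Finset.range (X + 1)).biUnion fun k => (B k (Ms k)).filter fun x => φ x < n).card :=
          t2.symm
      _ = ((((Finset.range (X + 1)).biUnion fun k => (B k (Ms k)).filter fun x => φ x < n :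
          Finset ℕ) : Set ℕ)).ncard := (Set.ncard_coe_finset _).symm
      _ ≤ {x | x ∈ BB ∧ φ x < n}.ncard :=
          Set.ncard_le_ncard s2 (hfinall.subset fun x hx => hx.2)
  obtain ⟨A, hA, hA'⟩ := hinv (φ '' BB) ⟨BB, hB, rfl⟩ (φ '' CC) hcount
  have hAC : A = CC := φ.injective.image_injective hA'
  rw [hAC] at hA
  exact hC hA

end Pool.Agent.J6H46.EX
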